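import Mathlib
import Pool.Agent.H.MP_5b8c2d_co.A

set_option autoImplicit false

namespace Pool.Agent.H.MP_3627f5_co

open Relation Finset

/-- a path with a pendant vertex in the middle -/
def Sp (L : ℕ) : SimpleGraph (Fin (2 * L + 2)) :=
  SimpleGraph.fromRel fun a b => ((a : ℕ) + 1 = b ∧ (b : ℕ) ≤ 2 * L) ∨ ((a : ℕ) = L ∧ (b : ℕ) = 2 * L + 1)

theorem Sp_adj {L : ℕ} (a b : Fin (2 * L + 2)) : (Sp L).Adj a b ↔
    ((a : ℕ) + 1 = b ∧ (b : ℕ) ≤ 2 * L) ∨ ((a : ℕ) = L ∧ (b : ℕ) = 2 * L + 1) ∨
    ((b : ℕ) + 1 = a ∧ (a : ℕ) ≤ 2 * L) ∨ ((b : ℕ) = L ∧ (a : ℕ) = 2 * L + 1) := by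
  simp only [Sp, SimpleGraph.fromRel_adj, ne_eq, Fin.ext_iff]
  omega

theorem Sp_tree (L : ℕ) : (Sp L).IsTree := by
  refine Pool.Agent.H.MP_5b8c2d_co.tree_of_par _ ⟨L, by omega⟩
    (fun v => if h : (v : ℕ) < L then ⟨v + 1, by omega⟩
      else if (v : ℕ) = 2 * L + 1 then ⟨L, by omega⟩ else ⟨v - 1, by omega⟩)
    (fun v => if (v : ℕ) < L then L - v else v - L) (fun v hv => ?_) fun v w h => ?_
  · have : (v : ℕ) ≠ L := fun h => hv (Fin.ext h)
    have := v.2
    clear hv
    rw [Sp_adj]
    by_cases c : (v : ℕ) < L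
    · simp only [dif_pos c, Fin.val_mk, true_and, and_true]; split_ifs <;> omega
    · by_cases c' : (v : ℕ) = 2 * L + 1
      · simp only [dif_neg c, if_pos c', Fin.val_mk, true_and, and_true]; split_ifs <;> omega
      · simp only [dif_neg c, if_neg c', Fin.val_mk]; split_ifs <;> omega
  · rw [Sp_adj] at h
    simp only [ne_eq, Fin.ext_iff]
    split_ifs <;> simp only <;> omega

theorem Sp_path {L : ℕ} {u v : Fin (2 * L + 2)} (w : (Sp L).Walk u v) (hw : w.IsPath)
    (h : ∀ i, 0 < i → i < w.length → (w.getVert i : ℕ) ≠ L) (hL : 1 ≤ L) :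
    w.length + 1 ≤ L + 1 := by
  let sd : Fin (2 * L + 2) → ℕ := fun a => if (a : ℕ) < L then 0 else if (a : ℕ) ≤ 2 * L then L + 1
    else L + 2
  have key : ∀ i j, i ≤ j → j ≤ w.length → (w.getVert i : ℕ) ≠ L → (w.getVert j : ℕ) ≠ L →
      sd (w.getVert i) = sd (w.getVert j) := by
    intro i j hij
    induction j, hij using Nat.le_induction with
    | base => exact fun _ _ _ => rfl
    | succ j hj ih =>
      intro h1 h2 h3
      have h4 : (w.getVert j : ℕ) ≠ L := by
        rcases hj.eq_or_lt with rfl | c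
        · exact h2
        · exact h j (by omega) h1
      have := (Sp_adj _ _).1 (w.adj_getVert_succ h1)
      rw [ih (by omega) h2 h4]
      simp only [sd]
      split_ifs <;> omega
  have := card_le_card_of_injOn (s := range (w.length + 1)) (t := range (L + 1))
    (fun i => if (w.getVert i : ℕ) = L then L else w.getVert i - sd (w.getVert i))
    (fun i _ => by
      have := (w.getVert i).2
      simp only [sd, coe_range, Set.mem_Iio]
      split_ifs <;> omega)
    (fun i hi j hj e => by
      simp only [coe_range, Set.mem_Iio] at hi hj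
      refine hw.getVert_injOn (show i ≤ _ by omega) (show j ≤ _ by omega) (Fin.ext ?_)
      have a := (w.getVert i).2
      have b := (w.getVert j).2
      by_cases c : (w.getVert i : ℕ) = L <;> by_cases c' : (w.getVert j : ℕ) = L
      · omega
      · simp only [sd, c, c', if_true, if_false] at e; split_ifs at e <;> omega
      · simp only [sd, c, c', if_true, if_false] at e; split_ifs at e <;> omega
      · have : sd (w.getVert i) = sd (w.getVert j) := by
          rcases le_total i j with d | d
          · exact key i j d (by omega) c c'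
          · exact (key j i d (by omega) c' c).symm
        simp only [sd, c, c', if_false] at e this
        split_ifs at e this <;> omega)
  simpa using this

theorem Sp_deg {L : ℕ} (hL : 1 ≤ L) {a : Fin (2 * L + 2)} (ha : (a : ℕ) = L) :
    ((Sp L).neighborSet a).ncard ≠ 2 := by
  have : (Sp L).neighborSet a = {⟨L - 1, by omega⟩, ⟨L + 1, by omega⟩, ⟨2 * L + 1, by omega⟩} := by
    ext b
    simp only [SimpleGraph.mem_neighborSet, Sp_adj, Set.mem_insert_iff, Set.mem_singleton_iff,
      Fin.ext_iff]
    omega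
  rw [this, Set.ncard_eq_three.2 ⟨_, _, _, ?_, ?_, ?_, rfl⟩]
  · omega
  all_goals simp only [ne_eq, Fin.ext_iff]; omega

/-- a move -/
def Mv {V P : Type} [DecidableEq P] (G : SimpleGraph V) (p q : P → V) : Prop :=
  ∃ i v, G.Adj (p i) v ∧ v ∉ Set.range p ∧ q = Function.update p i v

variable {L n : ℕ}

/-- vertices close to the centre -/
def ins (L d : ℕ) (v : Fin (2 * L + 2)) : Prop :=
  (v : ℕ) = 2 * L + 1 ∨ (L < v + d ∧ (v : ℕ) < L + d)

open Classical in
/-- collapsed coordinate -/
noncomputable def key (L d : ℕ) (v : Fin (2 * L + 2)) : ℕ := if ins L d v then L else v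

/-- inversions seen from outside -/
noncomputable def Psi (d : ℕ) (p : Fin n → Fin (2 * L + 2)) : ℕ :=
  #{x : Fin n × Fin n | x.1 < x.2 ∧ key L d (p x.2) < key L d (p x.1)}

open Classical in
theorem ins_card {d : ℕ} {p : Fin n → Fin (2 * L + 2)} (hp : Function.Injective p) (hd : 1 ≤ d) :
    #{j | ins L d (p j)} ≤ 2 * d := by
  have := card_le_card_of_injOn (s := {j | ins L d (p j)}) (t := range (2 * d))
    (fun j => if (p j : ℕ) = 2 * L + 1 then 0 else p j + d - L)
    (fun j hj => by
      simp only [coe_filter, mem_univ, true_and, Set.mem_setOf_eq, ins] at hj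
      simp only [coe_range, Set.mem_Iio]
      split_ifs <;> omega)
    (fun i hi j hj e => by
      simp only [coe_filter, mem_univ, true_and, Set.mem_setOf_eq, ins] at hi hj
      refine hp (Fin.ext ?_)
      simp only at e
      split_ifs at e <;> omega)
  simpa using this

open Classical in
theorem Psi_step {d : ℕ} (hd : 1 ≤ d) {p : Fin n → Fin (2 * L + 2)} (hp : Function.Injective p)
    {i : Fin n} {v : Fin (2 * L + 2)} (h : (Sp L).Adj (p i) v) (hv : v ∉ Set.range p) :
    Psi d p ≤ Psi d (Function.update p i v) +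
      if ins L d (p i) ↔ ins L d v then 0 else 4 * d := by
  rw [Sp_adj] at h
  have hne : ∀ j, j ≠ i → (p j : ℕ) ≠ p i ∧ (p j : ℕ) ≠ v := fun j hj =>
    ⟨fun e => hj (hp (Fin.ext e)), fun e => hv ⟨j, Fin.ext e⟩⟩
  have k : ∀ j, j ≠ i → ((ins L d (p i) ↔ ins L d v) ∨ ¬ ins L d (p j)) →
      (key L d (p j) < key L d (p i) → key L d (p j) < key L d v) ∧
      (key L d (p i) < key L d (p j) → key L d v < key L d (p j)) := fun j hj c => by
    have := hne j hj
    have := (p j).2
    unfold key
    split_ifs <;> simp only [ins] at * <;> omega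
  have main : ∀ x : Fin n × Fin n, x.1 < x.2 ∧ key L d (p x.2) < key L d (p x.1) →
      ((ins L d (p i) ↔ ins L d v) ∨ ((x.1 = i → ¬ ins L d (p x.2)) ∧
        (x.2 = i → ¬ ins L d (p x.1)))) →
      x.1 < x.2 ∧ key L d (Function.update p i v x.2) < key L d (Function.update p i v x.1) := by
    rintro ⟨a, b⟩ ⟨h1, h2⟩ c
    refine ⟨h1, ?_⟩
    simp only [Function.update_apply] at *
    split_ifs with c1 c2 c2
    · rw [c1, c2] at h1; exact absurd h1 (lt_irrefl _)
    · exact (k a c2 (c.imp id fun c => c.2 c1)).2 (c1 ▸ h2)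
    · exact (k b c1 (c.imp id fun c => c.1 c2)).1 (c2 ▸ h2)
    · exact h2
  split_ifs with c
  · exact card_le_card fun x hx => mem_filter.2 ⟨mem_univ _, main x (mem_filter.1 hx).2 (Or.inl c)⟩
  · have a := ins_card (L := L) hp hd
    refine (card_le_card (t := (univ.filter fun x : Fin n × Fin n => x.1 < x.2 ∧
      key L d (Function.update p i v x.2) < key L d (Function.update p i v x.1)) ∪
      (image (fun j => (i, j)) (univ.filter fun j => ins L d (p j)) ∪
        image (fun j => (j, i)) (univ.filter fun j => ins L d (p j))))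
      fun x hx => ?_).trans ((card_union_le _ _).trans (Nat.add_le_add_left
        ((card_union_le _ _).trans ?_) _))
    · by_contra e
      simp only [mem_union, not_or, mem_image, not_exists, not_and, mem_filter, mem_univ,
        true_and] at e
      exact (fun h : _ ∧ _ => e.1 h.1 h.2) (main x (mem_filter.1 hx).2 (Or.inr
        ⟨fun c1 c2 => e.2.1 _ c2 (by rw [← c1]), fun c1 c2 => e.2.2 _ c2 (by rw [← c1])⟩))
    · have := card_image_le (f := fun j => (i, j)) (s := ({j | ins L d (p j)} : Finset (Fin n)))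
      have := card_image_le (f := fun j => (j, i)) (s := ({j | ins L d (p j)} : Finset (Fin n)))
      omega

/-- the potential -/
noncomputable def Phi (D : ℕ) (p : Fin n → Fin (2 * L + 2)) : ℝ :=
  ∑ d ∈ range D, (Psi (d + 1) p : ℝ) / (4 * (d + 1))

theorem Mv.inj {V P : Type} [DecidableEq P] {G : SimpleGraph V} {p q : P → V} (h : Mv G p q)
    (hp : Function.Injective p) : Function.Injective q := by
  obtain ⟨i, v, -, hv, rfl⟩ := h
  intro a b e
  simp only [Function.update_apply] at e
  split_ifs at e with c1 c2 c2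
  · rw [c1, c2]
  · exact (hv ⟨b, e.symm⟩).elim
  · exact (hv ⟨a, e⟩).elim
  · exact hp e

theorem Phi_step (D : ℕ) {p q : Fin n → Fin (2 * L + 2)} (hp : Function.Injective p)
    (h : Mv (Sp L) p q) : Phi D p ≤ Phi D q + 1 := by
  classical
  obtain ⟨i, v, h, hv, rfl⟩ := h
  have a : ∑ d ∈ range D, (if ins L (d + 1) (p i) ↔ ins L (d + 1) v then (0 : ℝ) else 1) ≤ 1 := by
    simp only [← ite_not (_ ↔ _)]
    rw [sum_boole, Nat.cast_le_one, card_le_one]
    intro a ha b hb
    rw [Sp_adj] at h
    simp only [mem_filter, ins] at ha hb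
    omega
  refine le_trans ?_ (add_le_add_right a _)
  rw [Phi, Phi, ← sum_add_distrib]
  refine sum_le_sum fun d _ => ?_
  have := Psi_step (d := d + 1) (by omega) hp h hv
  have e : (0 : ℝ) < 4 * (d + 1) := by positivity
  rw [div_add' _ _ _ e.ne', div_le_div_iff_of_pos_right e]
  split_ifs at this ⊢
  · simpa using this
  · exact_mod_cast (by simpa using this)

theorem Phi_seq (D : ℕ) (s : ℕ → Fin n → Fin (2 * L + 2)) (h0 : Function.Injective (s 0)) (m : ℕ)
    (h : ∀ t < m, Mv (Sp L) (s t) (s (t + 1))) :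
    Function.Injective (s m) ∧ Phi D (s 0) ≤ Phi D (s m) + m := by
  induction m with
  | zero => simpa using h0
  | succ m ih =>
    obtain ⟨h1, h2⟩ := ih fun t ht => h t (by omega)
    have := Phi_step D h1 (h m (by omega))
    exact ⟨(h m (by omega)).inj h1, by push_cast; linarith⟩

end Pool.Agent.H.MP_3627f5_co
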