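import Mathlib
import Pool.Agent.H.MP_3627f5_co.A

set_option autoImplicit false

namespace Pool.Agent.H.MP_3627f5_co

open Relation Finset Pool.Agent.H.MP_f87a07_co

variable {L : ℕ}

/-- moves between injective placements -/
def MI (L : ℕ) (p q : Fin L → Fin (2 * L + 2)) : Prop := Function.Injective p ∧ Mv (Sp L) p q

theorem MI.symm {p q : Fin L → Fin (2 * L + 2)} (h : MI L p q) : MI L q p := by
  refine ⟨h.2.inj h.1, ?_⟩
  obtain ⟨hp, i, v, h, hv, rfl⟩ := h
  refine ⟨i, p i, by simpa using h.symm, ?_, by simp⟩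
  rintro ⟨j, e⟩
  rw [Function.update_apply] at e
  split_ifs at e with c
  · exact h.ne e.symm
  · exact c (hp e)

theorem slide (i : Fin L) (v : Fin (2 * L + 2)) (k : ℕ) : ∀ p : Fin L → Fin (2 * L + 2),
    Function.Injective p → (p i : ℕ) = v + k → (p i : ℕ) ≤ 2 * L →
    (∀ j, j ≠ i → (p j : ℕ) < v ∨ (p i : ℕ) < p j) →
    ReflTransGen (MI L) p (Function.update p i v) ∧ Function.Injective (Function.update p i v) := by
  induction k with
  | zero =>
    intro p hp h _ _
    rw [← (Fin.ext h : p i = v), Function.update_eq_self]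
    exact ⟨.refl, hp⟩
  | succ k ih =>
    intro p hp h h1 h2
    have m : MI L p (Function.update p i ⟨v + k, by omega⟩) := by
      refine ⟨hp, i, _, (Sp_adj _ _).2 (by simp only; omega), ?_, rfl⟩
      rintro ⟨j, e⟩
      have e' : (p j : ℕ) = v + k := congrArg Fin.val e
      by_cases c : j = i
      · rw [c] at e'; omega
      · have := h2 j c; omega
    have := ih _ (m.2.inj hp) (by simp) (by simp only [Function.update_self]; omega) fun j hj => by
      have := h2 j hj
      simp only [Function.update_self, Function.update_of_ne hj]; omega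
    rw [Function.update_idem] at this
    exact ⟨.head m this.1, this.2⟩

/-- packed placements -/
def pk (σ : Equiv.Perm (Fin L)) (a : ℕ) (i : Fin L) : Fin (2 * L + 2) :=
  if (σ i : ℕ) < a then ⟨σ i, by have := (σ i).2; omega⟩
  else ⟨L + 1 + σ i, by have := (σ i).2; omega⟩

theorem pk_val (σ : Equiv.Perm (Fin L)) (a : ℕ) (i : Fin L) :
    (pk σ a i : ℕ) = if (σ i : ℕ) < a then (σ i : ℕ) else L + 1 + σ i := by
  unfold pk; split_ifs <;> rfl

theorem pk_inj (σ : Equiv.Perm (Fin L)) (a : ℕ) : Function.Injective (pk σ a) := by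
  intro i j e
  have e' := congrArg Fin.val e
  have := (σ i).2
  have := (σ j).2
  rw [pk_val, pk_val] at e'
  exact σ.injective (Fin.ext (by split_ifs at e' <;> omega))

theorem ne_val (σ : Equiv.Perm (Fin L)) {j : Fin L} {a : Fin L} (h : j ≠ σ.symm a) :
    (σ j : ℕ) ≠ a := fun e => h (by rw [← Fin.ext e]; simp)

theorem pk_succ (σ : Equiv.Perm (Fin L)) (a : ℕ) :
    ReflTransGen (MI L) (pk σ 0) (pk σ a) := by
  induction a with
  | zero => exact .refl
  | succ a ih =>
    refine ih.trans ?_
    by_cases h : a < L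
    · convert (slide (σ.symm ⟨a, h⟩) ⟨a, by omega⟩ (L + 1) (pk σ a) (pk_inj σ a)
        (by simp [pk_val]; omega) (by simp [pk_val]; omega) fun j hj => ?_).1 using 1
      · funext j
        apply Fin.ext
        by_cases c : j = σ.symm ⟨a, h⟩
        · simp [c, pk_val]
        · have := ne_val σ c
          simp only [Function.update_of_ne c, pk_val] at *
          split_ifs <;> omega
      · have := ne_val σ hj
        simp only [pk_val, Equiv.apply_symm_apply] at *
        split_ifs <;> omega
    · convert ReflTransGen.refl using 1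
      funext j
      apply Fin.ext
      have := (σ j).2
      rw [pk_val, pk_val, if_pos (by omega), if_pos (by omega)]

theorem pk_swap (σ : Equiv.Perm (Fin L)) (a b : Fin L) (h : (a : ℕ) + 1 = b) :
    ReflTransGen (MI L) (pk σ a) (pk (Equiv.swap a b * σ) b) := by
  have hb := b.2
  have hxy : σ.symm b ≠ σ.symm a := fun e => by
    have := congrArg Fin.val (σ.symm.injective e); omega
  obtain ⟨s1, i1⟩ := slide (σ.symm a) ⟨L, by omega⟩ (1 + a) (pk σ a) (pk_inj σ a)
    (by simp [pk_val]; omega) (by simp [pk_val]; omega) fun j hj => by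
      have := ne_val σ hj
      simp only [pk_val, Equiv.apply_symm_apply] at *
      split_ifs <;> omega
  have m : ∀ p : Fin L → Fin (2 * L + 2), Function.Injective p → (p (σ.symm a) : ℕ) = L →
      (∀ j, (p j : ℕ) ≤ 2 * L) → MI L p (Function.update p (σ.symm a) ⟨2 * L + 1, by omega⟩) :=
    fun p hp h1 h2 => ⟨hp, _, _, (Sp_adj _ _).2 (Or.inr (Or.inl ⟨h1, rfl⟩)), fun ⟨j, e⟩ => by
      have := h2 j
      have := congrArg Fin.val e
      simp only at this; omega, rfl⟩
  have bd : ∀ (τ : Equiv.Perm (Fin L)) (c : ℕ) (j : Fin L),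
      (Function.update (pk τ c) (σ.symm a) ⟨L, by omega⟩ j : ℕ) ≤ 2 * L := fun τ c j => by
    have := (τ j).2
    rw [Function.update_apply]
    split_ifs
    · simp only; omega
    · rw [pk_val]; split_ifs <;> omega
  have m1 := m _ i1 (by simp) (bd _ _)
  rw [Function.update_idem] at m1
  obtain ⟨s2, -⟩ := slide (σ.symm b) ⟨a, by omega⟩ (L + 2) _ (m1.2.inj m1.1)
    (by simp [Function.update_of_ne hxy, pk_val]; split_ifs <;> omega)
    (by simp [Function.update_of_ne hxy, pk_val]; split_ifs <;> omega) fun j hj => by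
      have := ne_val σ hj
      rw [Function.update_of_ne hxy, Function.update_apply]
      split_ifs with c
      · simp only [pk_val, Equiv.apply_symm_apply]; split_ifs <;> omega
      · have := ne_val σ c
        simp only [pk_val, Equiv.apply_symm_apply] at *
        split_ifs <;> omega
  have sw : ∀ j, j ≠ σ.symm a → j ≠ σ.symm b → (Equiv.swap a b * σ) j = σ j := fun j c c' =>
    Equiv.swap_apply_of_ne_of_ne (fun e => ne_val σ c (by rw [e])) (fun e => ne_val σ c' (by rw [e]))
  obtain ⟨s3, i3⟩ := slide (σ.symm a) ⟨L, by omega⟩ (1 + b) (pk (Equiv.swap a b * σ) b)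
    (pk_inj _ _) (by simp [pk_val]; omega) (by simp [pk_val]; omega) fun j hj => by
      by_cases c : j = σ.symm b
      · simp [c, pk_val]; split_ifs <;> omega
      · have := ne_val σ hj
        have := ne_val σ c
        simp only [pk_val, sw j hj c]
        simp
        split_ifs <;> omega
  have m2 := m _ i3 (by simp) (bd _ _)
  rw [Function.update_idem] at m2
  refine ((s1.tail m1).trans s2).trans (rtg_symm (fun _ _ => MI.symm) ?_)
  convert s3.tail m2 using 1
  funext j
  apply Fin.ext
  by_cases c : j = σ.symm b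
  · simp [c, Function.update_of_ne hxy, pk_val]; omega
  by_cases c' : j = σ.symm a
  · simp [c', Function.update_of_ne hxy.symm]
  · have := ne_val σ c
    have := ne_val σ c'
    simp only [Function.update_of_ne c, Function.update_of_ne c', pk_val, sw j c' c]
    split_ifs <;> omega

theorem pk_all {n : ℕ} (τ : Equiv.Perm (Fin (n + 1))) :
    ReflTransGen (MI (n + 1)) (pk 1 0) (pk τ 0) := by
  have : τ ∈ Submonoid.closure (Set.range fun i : Fin n => Equiv.swap i.castSucc i.succ) := by
    rw [Equiv.Perm.mclosure_swap_castSucc_succ]; trivial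
  induction this using Submonoid.closure_induction_left with
  | one => exact .refl
  | mul_left x hx y _ ih =>
    obtain ⟨i, rfl⟩ := hx
    exact ((ih.trans (pk_succ y _)).trans (pk_swap y i.castSucc i.succ (by simp))).trans
      (rtg_symm (fun _ _ => MI.symm) (pk_succ _ _))

theorem rtg_seq {S : Type} {R : S → S → Prop} {a b : S} (h : ReflTransGen R a b) :
    ∃ (m : ℕ) (s : ℕ → S), s 0 = a ∧ s m = b ∧ ∀ t < m, R (s t) (s (t + 1)) := by
  induction h using ReflTransGen.head_induction_on with
  | refl => exact ⟨0, fun _ => b, rfl, rfl, fun _ h => by omega⟩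
  | @head a c h _ ih =>
    obtain ⟨m, s, h0, h1, h2⟩ := ih
    refine ⟨m + 1, fun t => Nat.casesOn t a s, rfl, h1, fun t ht => ?_⟩
    rcases t with _ | t
    · show R a (s 0)
      rwa [h0]
    · exact h2 t (by omega)

theorem Psi_one (d : ℕ) : Psi d (pk (L := L) 1 0) = 0 := by
  rw [Psi, card_eq_zero, filter_eq_empty_iff]
  rintro ⟨a, b⟩ - ⟨h1, h2⟩
  have := a.2
  have := b.2
  have : (a : ℕ) < b := h1
  simp only [key, ins, pk_val, Equiv.Perm.one_apply] at h2
  split_ifs at h2 <;> omega

theorem Psi_rev {D d : ℕ} (hL : L = 3 * D) (hd : d ≤ D) : D * D ≤ Psi d (pk (L := L) Fin.revPerm 0) := by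
  have := card_le_card_of_injOn (s := (univ : Finset (Fin D × Fin D)))
    (t := univ.filter fun x : Fin L × Fin L => x.1 < x.2 ∧
      key L d (pk Fin.revPerm 0 x.2) < key L d (pk Fin.revPerm 0 x.1))
    (fun x => (⟨x.1, by have := x.1.2; omega⟩, ⟨D + x.2, by have := x.2.2; omega⟩))
    (fun x _ => by
      have := x.1.2
      have := x.2.2
      simp only [coe_filter, mem_univ, true_and, Set.mem_setOf_eq, Fin.lt_def, key, ins, pk_val,
        Fin.revPerm_apply, Fin.val_rev]
      split_ifs <;> omega)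
    (fun x _ y _ e => by
      simp only [Prod.mk.injEq, Fin.mk.injEq] at e
      exact Prod.ext (Fin.ext e.1) (Fin.ext (by omega)))
  simpa [Psi] using this

theorem lower {D : ℕ} (hD : 1 ≤ D) (hL : L = 3 * D) (m : ℕ) (s : ℕ → Fin L → Fin (2 * L + 2))
    (h0 : s 0 = pk Fin.revPerm 0) (h1 : s m = pk 1 0) (h : ∀ t < m, Mv (Sp L) (s t) (s (t + 1))) :
    1 / 768 * ((2 * L + 2 : ℕ) : ℝ) ^ 2 * Real.log (2 * L + 2 : ℕ) ≤ m := by
  have a := (Phi_seq D s (h0 ▸ pk_inj _ _) m h).2
  rw [h0, h1] at a
  have b : Phi D (pk (L := L) 1 0) = 0 := by simp [Phi, Psi_one]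
  have c : (D : ℝ) * D / 4 * harmonic D ≤ Phi D (pk (L := L) Fin.revPerm 0) := by
    rw [harmonic, Phi]
    push_cast
    rw [mul_sum]
    refine sum_le_sum fun d hd => ?_
    have : (D : ℝ) * D ≤ Psi (d + 1) (pk (L := L) Fin.revPerm 0) := by
      exact_mod_cast Psi_rev (d := d + 1) hL (mem_range.1 hd)
    rw [← div_eq_mul_inv, div_div]
    gcongr
  have e := log_add_one_le_harmonic D
  have hD' : (1 : ℝ) ≤ D := by exact_mod_cast hD
  have f : Real.log (2 * L + 2 : ℕ) ≤ 3 * Real.log (D + 1 : ℕ) := by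
    rw [show (3 : ℝ) = (3 : ℕ) by norm_num, ← Real.log_pow]
    refine Real.log_le_log (by positivity) ?_
    rw [hL]; push_cast; nlinarith [mul_nonneg (sub_nonneg.2 hD') (sub_nonneg.2 hD')]
  have g : ((2 * L + 2 : ℕ) : ℝ) ^ 2 ≤ 64 * (D * D) := by rw [hL]; push_cast; nlinarith
  have l0 : 0 ≤ Real.log (2 * L + 2 : ℕ) := Real.log_natCast_nonneg _
  have := mul_le_mul g f l0 (by positivity)
  have : (D : ℝ) * D / 4 * Real.log (D + 1 : ℕ) ≤ D * D / 4 * harmonic D := by gcongr
  linarith

end Pool.Agent.H.MP_3627f5_co
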